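import Pool.Agent.W27.FB.Stm

/-! Project FB: the chain argument. -/

set_option autoImplicit false
open Filter Topology Finset
open scoped BoundedContinuousFunction

namespace Pool.Agent.W27.FB

open Pool.Agent.W634.BQ Pool.Agent.W505.BQ

theorem m_mono {m : (ℤ →ᵇ ℝ) →ₗ[ℝ] ℝ} (hm : IsMean m) {f g : ℤ →ᵇ ℝ} (h : ∀ n, f n ≤ g n) :
    m f ≤ m g := by
  have h1 := hm.pos (g - f) fun n => by
    rw [BoundedContinuousFunction.coe_sub, Pi.sub_apply]
    exact sub_nonneg.2 (h n)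
  rw [map_sub] at h1
  linarith

theorem m_const {m : (ℤ →ᵇ ℝ) →ₗ[ℝ] ℝ} (hm : IsMean m) (c : ℝ) : m (c • 1) = c := by
  rw [map_smul, hm.one, smul_eq_mul, mul_one]

theorem m_sh {m : (ℤ →ᵇ ℝ) →ₗ[ℝ] ℝ} (hm : IsMean m) (a : ℤ) (f : ℤ →ᵇ ℝ) :
    m (sh a f) = m f := by
  induction a using Int.induction_on with
  | zero =>
    congr 1
    ext n
    rw [sh_apply, add_zero]
  | succ k ih =>
    rw [← ih, ← hm.inv (sh k f)]
    congr 1
    ext n
    rw [sh_apply, sh_apply, sh_apply]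
    congr 1
    ring
  | pred k ih =>
    rw [← ih, ← hm.inv (sh (-(k : ℤ) - 1) f)]
    congr 1
    ext n
    rw [sh_apply, sh_apply, sh_apply]
    congr 1
    ring

/-- a constraint: a set with its almost periodic approximation for a mean -/
structure Con where
  m : (ℤ →ᵇ ℝ) →ₗ[ℝ] ℝ
  S : Set ℤ
  P : ℤ →ᵇ ℝ
  ε : ℝ
  hm : IsMean m
  hε : 0 < ε
  hP : co P ∈ Trig
  h01 : ∀ n, 0 ≤ P n ∧ P n ≤ 1
  happ : ∀ b : ℤ →ᵇ ℝ, co b ∈ Trig → (∀ n, |b n| ≤ 1) →
    ∀ G : ℤ →ᵇ ℝ, (∀ n, |G n| ≤ 1) → Null {a : ℤ | ε < |m (b * (ind S - P) * sh a G)|}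

/-- the size of a weight under a constraint -/
def Val (c : Con) (G : ℤ →ᵇ ℝ) (e : ℕ) : Prop :=
  (∀ n, 0 ≤ G n ∧ G n ≤ 1) ∧ 2 * c.ε * e < c.m (c.P ^ e * G)

theorem pow_apply (P : ℤ →ᵇ ℝ) (e : ℕ) (n : ℤ) : (P ^ e) n = P n ^ e := by
  induction e with
  | zero => simp
  | succ e ih => rw [pow_succ, pow_succ, BoundedContinuousFunction.coe_mul, Pi.mul_apply, ih]

theorem ind_01 (S : Set ℤ) (n : ℤ) : 0 ≤ ind S n ∧ ind S n ≤ 1 := by
  change 0 ≤ S.indicator (fun _ => (1 : ℝ)) n ∧ S.indicator (fun _ => (1 : ℝ)) n ≤ 1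
  by_cases h : n ∈ S <;> simp [h]

theorem ind_mem {S : Set ℤ} {n : ℤ} (h : n ∈ S) : ind S n = 1 :=
  Set.indicator_of_mem h (fun _ => (1 : ℝ))

theorem ind_notMem {S : Set ℤ} {n : ℤ} (h : n ∉ S) : ind S n = 0 :=
  Set.indicator_of_notMem h (fun _ => (1 : ℝ))

theorem co_pow (P : ℤ →ᵇ ℝ) (e : ℕ) : co (P ^ e) = (co P) ^ e := by
  induction e with
  | zero =>
    ext n
    simp
  | succ e ih =>
    rw [pow_succ (co P), ← ih]
    ext n
    rw [co_apply, BoundedContinuousFunction.coe_mul, Pi.mul_apply, co_apply, co_apply, pow_succ,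
      BoundedContinuousFunction.coe_mul, Pi.mul_apply]
    push_cast
    rfl

theorem trig_pow (htrg : S_trg) (P : ℤ →ᵇ ℝ) (hP : co P ∈ Trig) (e : ℕ) :
    co (P ^ e) ∈ Trig := by
  rw [co_pow]
  induction e with
  | zero =>
    rw [pow_zero]
    exact htrg.1
  | succ e ih =>
    rw [pow_succ]
    exact htrg.2.1 _ _ ih hP

theorem pow_abs (c : Con) (e : ℕ) (n : ℤ) : |(c.P ^ e) n| ≤ 1 := by
  rw [pow_apply, abs_of_nonneg (pow_nonneg (c.h01 n).1 e)]
  exact pow_le_one₀ (c.h01 n).1 (c.h01 n).2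

theorem step (c : Con) (G : ℤ →ᵇ ℝ) (e : ℕ) (a : ℤ) (hV : Val c G (e + 1))
    (ha : |c.m (c.P ^ e * (ind c.S - c.P) * sh a G)| ≤ c.ε)
    (hB : ∀ n, |(c.P ^ (e + 1)) (n + a) - (c.P ^ (e + 1)) n| ≤ c.ε) :
    Val c (ind c.S * sh a G) e := by
  obtain ⟨hG, hV⟩ := hV
  refine ⟨fun n => ?_, ?_⟩
  · rw [BoundedContinuousFunction.coe_mul, Pi.mul_apply, sh_apply]
    have h1 := ind_01 c.S n
    have h2 := hG (n + a)
    exact ⟨mul_nonneg h1.1 h2.1, mul_le_one₀ h1.2 h2.1 h2.2⟩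
  · have e1 : c.P ^ e * (ind c.S * sh a G) =
        c.P ^ e * (ind c.S - c.P) * sh a G + c.P ^ (e + 1) * sh a G := by ring
    have h1 : c.m (c.P ^ (e + 1) * G) - c.ε ≤ c.m (c.P ^ (e + 1) * sh a G) := by
      have h2 : c.m (c.P ^ (e + 1) * G) = c.m (sh a (c.P ^ (e + 1) * G)) := (m_sh c.hm a _).symm
      have h3 : c.m (sh a (c.P ^ (e + 1) * G)) - c.m (c.ε • 1) ≤
          c.m (c.P ^ (e + 1) * sh a G) := by
        rw [← map_sub]
        refine m_mono c.hm fun n => ?_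
        have h4 := abs_le.1 (hB n)
        have h5 := hG (n + a)
        have h6 := c.hε
        simp only [BoundedContinuousFunction.coe_sub, BoundedContinuousFunction.coe_smul,
          Pi.sub_apply, BoundedContinuousFunction.coe_one, Pi.one_apply, smul_eq_mul, mul_one,
          sh_apply, BoundedContinuousFunction.coe_mul, Pi.mul_apply]
        nlinarith
      rw [m_const c.hm] at h3
      rw [h2]
      exact h3
    rw [e1, map_add]
    have h2 := abs_le.1 ha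
    push_cast at hV
    nlinarith [h2.1]

/-- update of a weight -/
noncomputable def upd (S : Set ℤ) (l : List ℤ) (G : ℤ →ᵇ ℝ) : ℤ →ᵇ ℝ :=
  l.foldr (fun a G => ind S * sh a G) G

theorem upd_cons (S : Set ℤ) (a : ℤ) (l : List ℤ) (G : ℤ →ᵇ ℝ) :
    upd S (a :: l) G = ind S * sh a (upd S l G) := rfl

theorem upd_ne (S : Set ℤ) (l : List ℤ) (x : ℤ) (h : upd S l (ind S) x ≠ 0) :
    ∀ p : List ℤ, p <+: l → x + p.sum ∈ S := by
  induction l generalizing x with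
  | nil =>
    intro p hp
    rw [List.prefix_nil] at hp
    subst hp
    rw [List.sum_nil, add_zero]
    by_contra hx
    exact h (ind_notMem hx)
  | cons a l ih =>
    intro p hp
    rw [upd_cons, BoundedContinuousFunction.coe_mul, Pi.mul_apply, sh_apply] at h
    have h1 : x ∈ S := by
      by_contra hx
      exact h (by rw [ind_notMem hx, zero_mul])
    have h2 : upd S l (ind S) (x + a) ≠ 0 := fun h3 => h (by rw [h3, mul_zero])
    rcases List.prefix_cons_iff.1 hp with rfl | ⟨p', rfl, hp'⟩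
    · rw [List.sum_nil, add_zero]
      exact h1
    · rw [List.sum_cons, ← add_assoc]
      exact ih _ h2 p' hp'

theorem tangent (x μ : ℝ) (hx : 0 ≤ x) (hμ : 0 ≤ μ) (k : ℕ) :
    (k + 1) * μ ^ k * x - k * μ ^ (k + 1) ≤ x ^ (k + 1) := by
  induction k with
  | zero => simp
  | succ k ih =>
    have h1 : x * ((k + 1) * μ ^ k * x - k * μ ^ (k + 1)) ≤ x ^ (k + 1 + 1) := by
      rw [pow_succ x (k + 1), mul_comm (x ^ (k + 1))]
      exact mul_le_mul_of_nonneg_left ih hx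
    have h2 : 0 ≤ ((k : ℝ) + 1) * μ ^ k * (x - μ) ^ 2 := by positivity
    push_cast
    have h3 : x * ((k + 1) * μ ^ k * x - k * μ ^ (k + 1)) -
        (((k : ℝ) + 1 + 1) * μ ^ (k + 1) * x - (k + 1) * μ ^ (k + 1 + 1)) =
        ((k : ℝ) + 1) * μ ^ k * (x - μ) ^ 2 := by ring
    linarith

theorem jensen {m : (ℤ →ᵇ ℝ) →ₗ[ℝ] ℝ} (hm : IsMean m) (P : ℤ →ᵇ ℝ) (hP : ∀ n, 0 ≤ P n) (k : ℕ) :
    m P ^ (k + 1) ≤ m (P ^ (k + 1)) := by
  have h0 : 0 ≤ m P := hm.pos P hP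
  have h1 : m (((k + 1) * m P ^ k) • P - (k * m P ^ (k + 1)) • 1) ≤ m (P ^ (k + 1)) := by
    refine m_mono hm fun n => ?_
    simp only [BoundedContinuousFunction.coe_sub, BoundedContinuousFunction.coe_smul,
      Pi.sub_apply, BoundedContinuousFunction.coe_one, Pi.one_apply, smul_eq_mul, mul_one]
    rw [pow_apply]
    exact tangent _ _ (hP n) h0 k
  rw [map_sub, map_smul, m_const hm, smul_eq_mul] at h1
  refine le_trans (le_of_eq ?_) h1
  ring

theorem abs_of_happ (hnul : S_nul) (c : Con) (b : ℤ →ᵇ ℝ) (hb : co b ∈ Trig)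
    (hb1 : ∀ n, |b n| ≤ 1) : |c.m (b * (ind c.S - c.P))| ≤ c.ε := by
  by_contra hcon
  push Not at hcon
  have h1 := c.happ b hb hb1 1 (fun n => by simp)
  have h2 : {a : ℤ | c.ε < |c.m (b * (ind c.S - c.P) * sh a 1)|} = Set.univ := by
    ext a
    simp only [Set.mem_ofPred_eq, Set.mem_univ, iff_true]
    have h3 : sh a (1 : ℤ →ᵇ ℝ) = 1 := by
      ext n
      rfl
    rw [h3, mul_one]
    exact hcon
  rw [h2] at h1
  exact hnul.2.2.2.2.1 h1

theorem val_new (hnul : S_nul) (htrg : S_trg) (c : Con) (k : ℕ) (δ : ℝ)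
    (hδ : δ = c.m (ind c.S)) (h1 : c.ε ≤ δ / 2) (h2 : c.ε * (2 * k + 1) < (δ / 2) ^ (k + 1)) :
    Val c (ind c.S) k := by
  refine ⟨ind_01 c.S, ?_⟩
  have hε := c.hε
  have h3 := abs_le.1 (abs_of_happ hnul c 1 (by
    have : co (1 : ℤ →ᵇ ℝ) = 1 := by
      ext n
      simp
    rw [this]
    exact htrg.1) fun n => by simp)
  rw [one_mul, map_sub, ← hδ] at h3
  have h4 := abs_le.1 (abs_of_happ hnul c (c.P ^ k) (trig_pow htrg c.P c.hP k) (pow_abs c k))
  have h5 : c.P ^ k * (ind c.S - c.P) = c.P ^ k * ind c.S - c.P ^ (k + 1) := by ring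
  rw [h5, map_sub] at h4
  have h6 := jensen c.hm c.P (fun n => (c.h01 n).1) k
  have h7 : (δ / 2) ^ (k + 1) ≤ c.m c.P ^ (k + 1) := by
    apply pow_le_pow_left₀ (by linarith)
    linarith [h3.2]
  nlinarith [h4.1]

theorem union_null (hnul : S_nul) {α : Type*} (l : List α) (f : α → Set ℤ)
    (h : ∀ s ∈ l, Null (f s)) : ∃ N : Set ℤ, Null N ∧ ∀ s ∈ l, f s ⊆ N := by
  induction l with
  | nil => exact ⟨∅, hnul.2.2.2.1, by simp⟩
  | cons a l ih =>
    obtain ⟨N, hN, hs⟩ := ih fun s hs => h s (List.mem_cons_of_mem a hs)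
    refine ⟨f a ∪ N, hnul.2.2.1 _ _ (h a (List.mem_cons_self)) hN, ?_⟩
    intro s hs'
    rcases List.mem_cons.1 hs' with rfl | h1
    · exact Set.subset_union_left
    · exact (hs s h1).trans Set.subset_union_right

theorem bo_mono {T T' : Finset Circle} {ρ ρ' : ℝ} (hT : T ⊆ T') (hρ : ρ' ≤ ρ) :
    Bo T' ρ' ⊆ Bo T ρ := fun _ hk θ hθ => (hk θ (hT hθ)).trans_le hρ

theorem inter_bohr {α : Type*} (l : List α) (p : α → ℤ → Prop)
    (h : ∀ s ∈ l, ∃ (T : Finset Circle) (ρ : ℝ), 0 < ρ ∧ ∀ a ∈ Bo T ρ, p s a) :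
    ∃ (T : Finset Circle) (ρ : ℝ), 0 < ρ ∧ ∀ a ∈ Bo T ρ, ∀ s ∈ l, p s a := by
  classical
  induction l with
  | nil => exact ⟨∅, 1, one_pos, by simp⟩
  | cons s l ih =>
    obtain ⟨T, ρ, hρ, h1⟩ := ih fun s hs => h s (List.mem_cons_of_mem _ hs)
    obtain ⟨T', ρ', hρ', h2⟩ := h s List.mem_cons_self
    refine ⟨T ∪ T', min ρ ρ', lt_min hρ hρ', fun a ha t ht => ?_⟩
    rcases List.mem_cons.1 ht with rfl | h3
    · exact h2 a (bo_mono subset_union_right (min_le_right _ _) ha)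
    · exact h1 a (bo_mono subset_union_left (min_le_left _ _) ha) t h3

/-- the induction -/
theorem chain (hnul : S_nul) (hmean : S_mean) (htrg : S_trg) (hbohr : S_bohr) (happr : S_appr)
    (E : Set ℤ) (hE : ∀ (T : Finset Circle) (ρ : ℝ), 0 < ρ → ¬ Null (E ∩ Bo T ρ)) (k : ℕ) :
    ∀ ctx : List (Con × (ℤ →ᵇ ℝ) × ℕ), (∀ s ∈ ctx, Val s.1 s.2.1 (s.2.2 + k)) →
      ∃ l : List ℤ, l.length = k ∧ Good E l ∧ ∀ s ∈ ctx, Val s.1 (upd s.1.S l s.2.1) s.2.2 := by
  induction k with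
  | zero =>
    intro ctx h
    exact ⟨[], rfl, trivial, fun s hs => h s hs⟩
  | succ k ih =>
    intro ctx h
    -- the Bohr set
    obtain ⟨T, ρ, hρ, hB⟩ := inter_bohr ctx
      (fun s a => ∀ n, |(s.1.P ^ (s.2.2 + 1)) (n + a) - (s.1.P ^ (s.2.2 + 1)) n| ≤ s.1.ε) (by
        intro s _
        obtain ⟨T, ρ, hρ, h1⟩ := hbohr _ (trig_pow htrg s.1.P s.1.hP (s.2.2 + 1)) s.1.ε s.1.hε
        refine ⟨T, ρ, hρ, fun a ha n => ?_⟩
        have h2 := h1 a ha n
        rw [co_apply, co_apply, ← Complex.ofReal_sub, Complex.norm_real, Real.norm_eq_abs] at h2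
        exact h2)
    -- the new mean
    obtain ⟨m, hm, hext, hpos⟩ := hmean (E ∩ Bo T ρ) (hE T ρ hρ)
    obtain ⟨δ, hδ⟩ : ∃ δ, δ = m (ind (E ∩ Bo T ρ)) := ⟨_, rfl⟩
    rw [← hδ] at hpos
    obtain ⟨ε, hε, hε1, hε2⟩ : ∃ ε : ℝ, 0 < ε ∧ ε ≤ δ / 2 ∧
        ε * (2 * k + 1) < (δ / 2) ^ (k + 1) := by
      have h1 : 0 < (δ / 2) ^ (k + 1) := by positivity
      refine ⟨min (δ / 2) ((δ / 2) ^ (k + 1) / (2 * (2 * k + 1))), by positivity,
        min_le_left _ _, ?_⟩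
      have h2 : (0 : ℝ) < 2 * k + 1 := by positivity
      calc _ ≤ ((δ / 2) ^ (k + 1) / (2 * (2 * k + 1))) * (2 * k + 1) :=
            mul_le_mul_of_nonneg_right (min_le_right _ _) h2.le
        _ = (δ / 2) ^ (k + 1) / 2 := by field_simp
        _ < _ := by linarith
    obtain ⟨P, hP, h01, happ⟩ := happr m hm hext (E ∩ Bo T ρ) ε hε
    let c : Con := ⟨m, E ∩ Bo T ρ, P, ε, hm, hε, hP, h01, happ⟩
    have hVc : Val c (ind c.S) k := val_new hnul htrg c k δ hδ hε1 hε2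
    obtain ⟨l, hl, hgood, hctx⟩ := ih ((c, ind c.S, 0) ::
      ctx.map fun s => (s.1, s.2.1, s.2.2 + 1)) (by
        intro s hs
        rcases List.mem_cons.1 hs with rfl | h1
        · change Val c (ind c.S) (0 + k)
          rw [zero_add]
          exact hVc
        · obtain ⟨t, ht, rfl⟩ := List.mem_map.1 h1
          have h2 := h t ht
          have h3 : t.2.2 + (k + 1) = t.2.2 + 1 + k := by ring
          rw [h3] at h2
          exact h2)
    have hnew : Val c (upd c.S l (ind c.S)) 0 := hctx (c, ind c.S, 0) List.mem_cons_self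
    have hold : ∀ s ∈ ctx, Val s.1 (upd s.1.S l s.2.1) (s.2.2 + 1) := fun s hs =>
      hctx (s.1, s.2.1, s.2.2 + 1)
        (List.mem_cons_of_mem _ (List.mem_map.2 ⟨s, hs, rfl⟩))
    -- the null set
    obtain ⟨N, hN, hNs⟩ := union_null hnul ctx
      (fun s => {a : ℤ | s.1.ε <
        |s.1.m (s.1.P ^ s.2.2 * (ind s.1.S - s.1.P) * sh a (upd s.1.S l s.2.1))|}) (by
        intro s hs
        refine s.1.happ _ (trig_pow htrg s.1.P s.1.hP _) (pow_abs s.1 _) _ fun n => ?_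
        have h1 := (hold s hs).1 n
        rw [abs_of_nonneg h1.1]
        exact h1.2)
    obtain ⟨x, hxN, hx⟩ : ∃ x, x ∉ N ∧ upd c.S l (ind c.S) x ≠ 0 := by
      by_contra hcon
      push Not at hcon
      have h1 : c.m (upd c.S l (ind c.S)) ≤ c.m (ind N) := by
        refine m_mono c.hm fun n => ?_
        by_cases hn : n ∈ N
        · rw [ind_mem hn]
          exact (hnew.1 n).2
        · rw [ind_notMem hn]
          exact (hcon n hn).le
      have h2 := hnul.1 c.m c.hm N hN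
      have h3 := hnew.2
      rw [pow_zero, one_mul] at h3
      rw [h2] at h1
      simp only [Nat.cast_zero, mul_zero] at h3
      linarith
    have hpre := upd_ne c.S l x hx
    refine ⟨x :: l, by rw [List.length_cons, hl], ⟨fun p hp => (hpre p hp).1, hgood⟩, ?_⟩
    intro s hs
    rw [upd_cons]
    have hxS : x ∈ Bo T ρ := by
      have h1 := hpre [] List.nil_prefix
      rw [List.sum_nil, add_zero] at h1
      exact h1.2
    refine step s.1 _ s.2.2 x (hold s hs) ?_ (hB x hxS s hs)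
    have h1 : x ∉ {a : ℤ | s.1.ε <
        |s.1.m (s.1.P ^ s.2.2 * (ind s.1.S - s.1.P) * sh a (upd s.1.S l s.2.1))|} :=
      fun h => hxN (hNs s hs h)
    rw [Set.mem_ofPred_eq, not_lt] at h1
    exact h1

theorem main (hnul : S_nul) (hmean : S_mean) (htrg : S_trg) (hbohr : S_bohr) (happr : S_appr) :
    S_main := by
  intro E hE k
  obtain ⟨l, h1, h2, _⟩ := chain hnul hmean htrg hbohr happr E hE k [] (by simp)
  exact ⟨l, h1, h2⟩

end Pool.Agent.W27.FB
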