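import Pool.Agent.W27.FB.Chain

/-! Project FB: auxiliary facts on Bohr sets, null sets and consecutive sums. -/

set_option autoImplicit false
open Filter Topology Finset
open scoped BoundedContinuousFunction

namespace Pool.Agent.W27.FB

open Pool.Agent.W634.BQ Pool.Agent.W505.BQ

theorem good_sub {E : Set ℤ} (l : List ℤ) (h : Good E l) :
    ∀ i j : ℕ, i < j → j ≤ l.length → (l.take j).sum - (l.take i).sum ∈ E := by
  induction l with
  | nil =>
    intro i j hij hj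
    simp at hj
    omega
  | cons a l ih =>
    obtain ⟨h1, h2⟩ := h
    intro i j hij hj
    obtain ⟨j, rfl⟩ : ∃ j', j = j' + 1 := ⟨j - 1, by omega⟩
    rw [List.length_cons] at hj
    rw [List.take_succ_cons, List.sum_cons]
    rcases Nat.eq_zero_or_pos i with rfl | hi
    · rw [List.take_zero, List.sum_nil, sub_zero]
      exact h1 _ (List.take_prefix _ _)
    · obtain ⟨i, rfl⟩ : ∃ i', i = i' + 1 := ⟨i - 1, by omega⟩
      rw [List.take_succ_cons, List.sum_cons]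
      have h3 := ih h2 i j (by omega) (by omega)
      have h4 : a + (l.take j).sum - (a + (l.take i).sum) = (l.take j).sum - (l.take i).sum := by
        ring
      rw [h4]
      exact h3

theorem pos_lower (s : Finset ℕ) (f : ℕ → ℝ) (h : ∀ r ∈ s, 0 < f r) :
    ∃ ρ : ℝ, 0 < ρ ∧ ∀ r ∈ s, ρ ≤ f r := by
  rcases s.eq_empty_or_nonempty with rfl | hs
  · exact ⟨1, one_pos, by simp⟩
  · obtain ⟨r, hr, h1⟩ := s.exists_min_image f hs
    exact ⟨f r, h r hr, h1⟩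

theorem div_bohr (Q : ℕ) (hQ : 0 < Q) :
    ∃ (T : Finset Circle) (ρ : ℝ), 0 < ρ ∧ ∀ k ∈ Bo T ρ, (Q : ℤ) ∣ k := by
  have h0 : IsPrimitiveRoot ((Circle.exp (2 * Real.pi / Q) : Circle) : ℂ) Q := by
    have h1 := Complex.isPrimitiveRoot_exp Q hQ.ne'
    rw [Circle.coe_exp]
    have h2 : ((2 * Real.pi / Q : ℝ) : ℂ) * Complex.I = 2 * Real.pi * Complex.I / Q := by
      push_cast
      ring
    rw [h2]
    exact h1
  obtain ⟨z, hz⟩ : ∃ z : Circle, z = Circle.exp (2 * Real.pi / Q) := ⟨_, rfl⟩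
  rw [← hz] at h0
  obtain ⟨ρ, hρ, h1⟩ := pos_lower (Ico 1 Q) (fun r => ‖(z : ℂ) ^ r - 1‖) (by
    intro r hr
    rw [mem_Ico] at hr
    rw [norm_pos_iff, sub_ne_zero]
    intro h2
    have h3 := Nat.le_of_dvd (by omega) ((h0.pow_eq_one_iff_dvd r).1 h2)
    omega)
  refine ⟨{z}, ρ, hρ, fun k hk => ?_⟩
  have h2 := hk z (mem_singleton_self z)
  by_contra hcon
  have h3 : 0 ≤ k % Q := Int.emod_nonneg _ (by exact_mod_cast hQ.ne')
  have h4 : k % Q < Q := Int.emod_lt_of_pos _ (by exact_mod_cast hQ)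
  have h5 : k % Q ≠ 0 := fun h => hcon (Int.dvd_of_emod_eq_zero h)
  obtain ⟨r, hr⟩ : ∃ r : ℕ, (r : ℤ) = k % Q := ⟨(k % Q).toNat, Int.toNat_of_nonneg h3⟩
  have h6 : r ∈ Ico 1 Q := by
    rw [mem_Ico]
    omega
  have h7 : ((z ^ k : Circle) : ℂ) = (z : ℂ) ^ r := by
    have h8 : k = (Q : ℤ) * (k / Q) + r := by
      rw [hr]
      exact (Int.mul_ediv_add_emod k Q).symm
    have h9 : z ^ (Q : ℤ) = 1 := by
      apply Subtype.ext
      rw [zpow_natCast, Circle.coe_pow, h0.pow_eq_one, Circle.coe_one]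
    rw [h8, zpow_add, zpow_mul, h9, one_zpow, one_mul, zpow_natCast, Circle.coe_pow]
  rw [h7] at h2
  exact absurd h2 (not_lt.2 (h1 r h6))

theorem null_dil {N : Set ℤ} (hN : Null N) (m : ℕ) (hm : 0 < m) :
    Null {k : ℤ | (m : ℤ) * k ∈ N} := by
  intro ε hε
  have hm' : (0 : ℝ) < m := by exact_mod_cast hm
  obtain ⟨L0, h⟩ := hN (ε / m) (by positivity)
  refine ⟨L0, fun L hL u => ?_⟩
  have h1 := h (m * L) (hL.trans (Nat.le_mul_of_pos_left L hm)) (m * u)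
  have h2 : {n : ℕ | n < L ∧ u + (n : ℤ) ∈ {k : ℤ | (m : ℤ) * k ∈ N}}.ncard ≤
      {n : ℕ | n < m * L ∧ (m : ℤ) * u + (n : ℤ) ∈ N}.ncard := by
    refine Set.ncard_le_ncard_of_injOn (fun n => m * n) ?_ ?_
      ((Set.finite_lt_nat (m * L)).subset fun n hn => hn.1)
    · rintro n ⟨h3, h4⟩
      refine ⟨Nat.mul_lt_mul_of_pos_left h3 hm, ?_⟩
      have h5 : (m : ℤ) * u + ((m * n : ℕ) : ℤ) = m * (u + n) := by
        push_cast
        ring
      rw [h5]
      exact h4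
    · intro x _ y _ hxy
      exact Nat.eq_of_mul_eq_mul_left hm hxy
  have h3 : ((m * L : ℕ) : ℝ) = m * L := by push_cast; ring
  rw [h3] at h1
  calc _ ≤ _ := Nat.cast_le.2 h2
    _ ≤ _ := h1
    _ = _ := by field_simp

theorem bo_dil (T : Finset Circle) (ρ : ℝ) (m : ℕ) :
    ∃ T' : Finset Circle, ∀ k ∈ Bo T' ρ, (m : ℤ) * k ∈ Bo T ρ := by
  classical
  refine ⟨T.image (fun θ => θ ^ m), fun k hk θ hθ => ?_⟩
  have h1 := hk (θ ^ m) (mem_image_of_mem _ hθ)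
  rw [zpow_mul, zpow_natCast]
  exact h1

/-- from null sets to windows of natural numbers -/
theorem null_window {N : Set ℤ} (hN : Null N) (ε : ℝ) (hε : 0 < ε) : ∃ L0 : ℕ, ∀ L : ℕ, L0 ≤ L →
    ∀ u : ℕ, ({k : ℕ | u < k ∧ k ≤ u + L ∧ (k : ℤ) ∈ N}.ncard : ℝ) ≤ ε * L := by
  obtain ⟨L0, h⟩ := hN ε hε
  refine ⟨L0, fun L hL u => le_trans ?_ (h L hL (u + 1))⟩
  rw [Nat.cast_le]
  refine Set.ncard_le_ncard_of_injOn (fun k => k - (u + 1)) ?_ ?_
    ((Set.finite_lt_nat L).subset fun n hn => hn.1)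
  · rintro k ⟨h1, h2, h3⟩
    refine ⟨by show k - (u + 1) < L; omega, ?_⟩
    have h4 : (u : ℤ) + 1 + ((k - (u + 1) : ℕ) : ℤ) = k := by
      rw [Nat.cast_sub (by omega)]
      push_cast
      ring
    rw [h4]
    exact h3
  · rintro x ⟨h1, _⟩ y ⟨h2, _⟩ hxy
    simp only at hxy
    omega

end Pool.Agent.W27.FB
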