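import Pool.Agent.W27.FB.Div
import Pool.Agent.W59.GB.Cls
import Pool.Agent.H732R3.QuarterB

/-! Project FB: prime gaps. -/

set_option autoImplicit false
open Filter Topology Finset
open scoped BoundedContinuousFunction

namespace Pool.Agent.W27.FB

open Pool.Agent.W634.BQ Pool.Agent.W505.BQ Pool.Agent.W59.GB Pool.Agent.H947R3.GM

theorem struct_one (hmain : S_main) (hnul : S_nul) {N a : ℕ} (hN : 0 < N) (ha : a.Coprime N) :
    ∃ (T : Finset Circle) (ρ : ℝ), 0 < ρ ∧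
      Null ({k : ℤ | 0 < k ∧ k.toNat ∉ GapB N a} ∩ Bo T ρ) := by
  classical
  obtain ⟨K, hK, hcon⟩ := consecB Pool.Agent.H732R3.BigQ.quarterB hN ha
  by_contra hno
  push Not at hno
  obtain ⟨Q, hQ⟩ : ∃ Q : ℕ, Q = (5 * K).factorial := ⟨_, rfl⟩
  have hQ0 : 0 < Q := by
    rw [hQ]
    exact Nat.factorial_pos _
  obtain ⟨T0, ρ0, hρ0, hdiv⟩ := div_bohr Q hQ0
  obtain ⟨l, hl, hgood⟩ := hmain ({k : ℤ | 0 < k ∧ k.toNat ∉ GapB N a} ∩ {k : ℤ | (Q : ℤ) ∣ k})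
    (by
      intro T ρ hρ hnull
      refine hno (T ∪ T0) (min ρ ρ0) (lt_min hρ hρ0) (hnul.2.1 _ _ ?_ hnull)
      rintro k ⟨h1, h2⟩
      exact ⟨⟨h1, hdiv k (bo_mono subset_union_right (min_le_right _ _) h2)⟩,
        bo_mono subset_union_left (min_le_left _ _) h2⟩) (5 * K)
  have hsub := good_sub l hgood
  rw [hl] at hsub
  obtain ⟨X, hX⟩ : ∃ X : ℕ → ℤ, ∀ j, X j = (l.take j).sum := ⟨_, fun _ => rfl⟩
  simp only [← hX] at hsub
  have hX0 : X 0 = 0 := by rw [hX, List.take_zero, List.sum_nil]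
  have hmono : ∀ i j, i < j → j ≤ 5 * K → X i < X j := by
    intro i j hij hj
    have := (hsub i j hij hj).1.1
    linarith
  have hnn : ∀ j, j ≤ 5 * K → 0 ≤ X j := by
    intro j hj
    rcases Nat.eq_zero_or_pos j with rfl | h
    · rw [hX0]
    · have := hmono 0 j h hj
      rw [hX0] at this
      exact this.le
  have hdvd : ∀ j, j ≤ 5 * K → (Q : ℤ) ∣ X j := by
    intro j hj
    rcases Nat.eq_zero_or_pos j with rfl | h
    · rw [hX0]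
      exact dvd_zero _
    · have := (hsub 0 j h hj).2
      rw [hX0, sub_zero] at this
      exact this
  obtain ⟨H, hH⟩ : ∃ H : Fin 5 → Fin K → ℕ, ∀ g i,
      H g i = (X (finProdFinEquiv (g, i) : Fin (5 * K))).toNat := ⟨_, fun _ _ => rfl⟩
  have hHX : ∀ g i, (H g i : ℤ) = X (finProdFinEquiv (g, i) : Fin (5 * K)) := by
    intro g i
    rw [hH, Int.toNat_of_nonneg (hnn _ (finProdFinEquiv (g, i)).2.le)]
  have hlt : ∀ x y : Fin (5 * K), X x < X y → x < y := by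
    intro x y hxy
    by_contra h
    push Not at h
    rcases h.eq_or_lt with h1 | h1
    · rw [h1] at hxy
      exact lt_irrefl _ hxy
    · have := hmono y x h1 x.2.le
      linarith
  have hinj : ∀ x y : Fin (5 * K), X x = X y → x = y := by
    intro x y hxy
    by_contra h
    rcases lt_or_gt_of_ne h with h1 | h1
    · have := hmono x y h1 y.2.le
      linarith
    · have := hmono y x h1 x.2.le
      linarith
  have hadm : AdmN N H := by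
    refine ⟨fun x y hxy => ?_, fun p hp _ => ?_⟩
    · simp only at hxy
      have h1 : (H x.1 x.2 : ℤ) = H y.1 y.2 := by rw [hxy]
      rw [hHX, hHX] at h1
      have h2 := finProdFinEquiv.injective (hinj _ _ h1)
      exact h2
    · rcases le_or_gt p (5 * K) with hpk | hpk
      · refine ⟨1, fun g i hd => ?_⟩
        have h1 : (p : ℤ) ∣ (Q : ℤ) := by
          rw [hQ]
          exact Int.natCast_dvd_natCast.2 ((Nat.Prime.dvd_factorial hp).2 hpk)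
        have h2 : (p : ℤ) ∣ H g i := by
          rw [hHX]
          exact h1.trans (hdvd _ (finProdFinEquiv (g, i)).2.le)
        have h3 : (p : ℤ) ∣ 1 := (Int.dvd_add_left h2).1 hd
        exact hp.one_lt.ne' (by exact_mod_cast Int.eq_one_of_dvd_one (by positivity) h3)
      · obtain ⟨n, hn⟩ := Pool.Agent.H361R2.exists_avoid' (m := 5 * K) hp hpk (fun _ => 1)
          (fun x => X x) (by
            rintro x ⟨h1, _⟩
            exact hp.one_lt.ne' (by exact_mod_cast Int.eq_one_of_dvd_one (by positivity) h1))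
        refine ⟨n, fun g i hd => hn (finProdFinEquiv (g, i)) ?_⟩
        rw [one_mul, ← hHX]
        exact hd
  obtain ⟨g, g', i, i', _, hlt', hgap⟩ := hcon H hadm
  have h1 : X (finProdFinEquiv (g, i) : Fin (5 * K)) < X (finProdFinEquiv (g', i') : Fin (5 * K)) := by
    rw [← hHX, ← hHX]
    exact_mod_cast hlt'
  have h2 := (hsub _ _ (hlt _ _ h1) (finProdFinEquiv (g', i')).2.le).1.2
  rw [← hHX, ← hHX] at h2
  apply h2
  have h3 : ((H g' i' : ℤ) - H g i).toNat = H g' i' - H g i := by omega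
  rw [h3]
  exact hgap

/-- the gap statement of the results -/
def GapK (N a k : ℕ) : Prop := ∀ η : ℝ, 0 < η → ∃ᶠ x : ℝ in atTop,
  x ^ (1 - η) ≤ ({n : ℕ | (Nat.nth Nat.Prime n : ℝ) ≤ x ∧ Nat.nth Nat.Prime n ≡ a [MOD N] ∧
    Nat.nth Nat.Prime (n + 1) = Nat.nth Nat.Prime n + N * k}.ncard : ℝ)

theorem gapK_mod (N a k : ℕ) (h : GapK N (a % N) k) : GapK N a k := by
  intro η hη
  refine (h η hη).mono fun x hx => ?_
  have h1 : {n : ℕ | (Nat.nth Nat.Prime n : ℝ) ≤ x ∧ Nat.nth Nat.Prime n ≡ a % N [MOD N] ∧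
      Nat.nth Nat.Prime (n + 1) = Nat.nth Nat.Prime n + N * k} =
      {n : ℕ | (Nat.nth Nat.Prime n : ℝ) ≤ x ∧ Nat.nth Nat.Prime n ≡ a [MOD N] ∧
      Nat.nth Nat.Prime (n + 1) = Nat.nth Nat.Prime n + N * k} := by
    ext n
    simp only [Set.mem_ofPred_eq, Nat.ModEq, Nat.mod_mod]
  rw [← h1]
  exact hx

theorem struct_all (hmain : S_main) (hnul : S_nul) {N : ℕ} (hN : 0 < N) (M : ℕ) :
    ∃ (T : Finset Circle) (ρ : ℝ), 0 < ρ ∧
      Null ({k : ℤ | 0 < k ∧ ¬ ∀ m : ℕ, 1 ≤ m → m ≤ M → ∀ a : ℕ, a.Coprime N →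
        GapK N a (m * k.toNat)} ∩ Bo T ρ) := by
  classical
  obtain ⟨l, hl⟩ : ∃ l : List (ℕ × ℕ), ∀ s : ℕ × ℕ, s ∈ l ↔ (1 ≤ s.1 ∧ s.1 ≤ M) ∧ s.2 < N ∧
      s.2.Coprime N := by
    refine ⟨((Icc 1 M) ×ˢ ((range N).filter fun a => a.Coprime N)).toList, fun s => ?_⟩
    rw [mem_toList, mem_product, mem_Icc, mem_filter, mem_range]
  have h1 : ∀ s ∈ l, ∃ (T : Finset Circle) (ρ : ℝ), 0 < ρ ∧
      Null ({k : ℤ | 0 < k ∧ s.1 * k.toNat ∉ GapB N s.2} ∩ Bo T ρ) := by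
    intro s hs
    rw [hl] at hs
    obtain ⟨T, ρ, hρ, h2⟩ := struct_one hmain hnul hN hs.2.2
    obtain ⟨T', hT'⟩ := bo_dil T ρ s.1
    refine ⟨T', ρ, hρ, hnul.2.1 _ _ ?_ (null_dil h2 s.1 hs.1.1)⟩
    rintro k ⟨⟨h3, h4⟩, h5⟩
    have h6 : (0 : ℤ) < s.1 := by exact_mod_cast hs.1.1
    refine ⟨⟨by positivity, ?_⟩, hT' k h5⟩
    have h7 : ((s.1 : ℤ) * k).toNat = s.1 * k.toNat := by
      have h8 : (s.1 : ℤ) * k = ((s.1 * k.toNat : ℕ) : ℤ) := by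
        push_cast
        rw [Int.toNat_of_nonneg h3.le]
      rw [h8, Int.toNat_natCast]
    rw [h7]
    exact h4
  choose! T ρ hρ hnull using h1
  obtain ⟨T1, ρ1, hρ1, h2⟩ := inter_bohr l (fun s a => a ∈ Bo (T s) (ρ s))
    (fun s hs => ⟨T s, ρ s, hρ s hs, fun a ha => ha⟩)
  obtain ⟨N1, hN1, h3⟩ := union_null hnul l
    (fun s => {k : ℤ | 0 < k ∧ s.1 * k.toNat ∉ GapB N s.2} ∩ Bo (T s) (ρ s)) hnull
  refine ⟨T1, ρ1, hρ1, hnul.2.1 _ _ ?_ hN1⟩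
  rintro k ⟨⟨hk0, hk⟩, hkB⟩
  by_contra hkN
  apply hk
  intro m hm1 hmM a ha
  have hs : (m, a % N) ∈ l := by
    rw [hl]
    refine ⟨⟨hm1, hmM⟩, Nat.mod_lt _ hN, ?_⟩
    show Nat.gcd (a % N) N = 1
    rw [(Nat.mod_modEq a N).gcd_eq]
    exact ha
  apply gapK_mod
  apply nthB
  by_contra h4
  exact hkN (h3 _ hs ⟨⟨hk0, h4⟩, h2 k hkB _ hs⟩)

/-- **Folner's theorem for prime gaps.** -/
theorem folner (hmain : S_main) (hnul : S_nul) (hdens : S_dens) (hconv : S_conv) {N : ℕ}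
    (hN : 0 < N) (M : ℕ) :
    ∃ (T : Finset ℝ) (ρ : ℝ), 0 < ρ ∧
      (∃ c : ℝ, 0 < c ∧ ∃ L0 : ℕ, ∀ L : ℕ, L0 ≤ L → ∀ u : ℕ,
        c * L ≤ ({k : ℕ | u < k ∧ k ≤ u + L ∧
          ∀ θ ∈ T, |k * θ - round (k * θ)| < ρ}.ncard : ℝ)) ∧
      ∀ ε : ℝ, 0 < ε → ∃ L0 : ℕ, ∀ L : ℕ, L0 ≤ L → ∀ u : ℕ,
        ({k : ℕ | u < k ∧ k ≤ u + L ∧ (∀ θ ∈ T, |k * θ - round (k * θ)| < ρ) ∧
          ¬ ∀ m : ℕ, 1 ≤ m → m ≤ M → ∀ a : ℕ, a.Coprime N → GapK N a (m * k)}.ncard : ℝ)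
          ≤ ε * L := by
  obtain ⟨T, ρ, hρ, h1⟩ := struct_all hmain hnul hN M
  obtain ⟨T', ρ', hρ', h2⟩ := hconv T ρ hρ
  refine ⟨T', ρ', hρ', hdens T' ρ' hρ', fun ε hε => ?_⟩
  obtain ⟨L0, h3⟩ := null_window h1 ε hε
  refine ⟨L0, fun L hL u => le_trans ?_ (h3 L hL u)⟩
  rw [Nat.cast_le]
  refine Set.ncard_le_ncard ?_ ((Set.finite_Ioc u (u + L)).subset fun k hk => ⟨hk.1, hk.2.1⟩)
  rintro k ⟨h4, h5, h6, h7⟩
  refine ⟨h4, h5, ⟨by exact_mod_cast (show 0 < k by omega), ?_⟩, h2 k h6⟩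
  rw [Int.toNat_natCast]
  exact h7

end Pool.Agent.W27.FB
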