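import Pool.Agent.W505.BQ.Gns

set_option autoImplicit false
open Filter Topology Finset
open scoped BoundedContinuousFunction

/-!
# Project FB : Folner's theorem for prime gaps (MP_70e905_nt, MP_49610d_nt)

Definitions and the statements of the independent parts.
`ind`, `sh`, `cre`, `cim`, `chr`, `IsMean`, `Extr`, `S_gns`, `S_wm` are in `Pool.Agent.W634.BQ.Stms`,
`co` (a real bounded function as a complex one) and `mC` (the complexified mean) in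
`Pool.Agent.W505.BQ.Gns`.
-/

namespace Pool.Agent.W27.FB

open Pool.Agent.W634.BQ Pool.Agent.W505.BQ

/-- a set of integers of upper Banach density zero -/
def Null (N : Set ℤ) : Prop :=
  ∀ ε : ℝ, 0 < ε → ∃ L0 : ℕ, ∀ L : ℕ, L0 ≤ L → ∀ u : ℤ,
    ({n : ℕ | n < L ∧ u + (n : ℤ) ∈ N}.ncard : ℝ) ≤ ε * L

/-- the Bohr neighbourhood of zero defined by finitely many points of the circle -/
def Bo (T : Finset Circle) (ρ : ℝ) : Set ℤ :=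
  {k : ℤ | ∀ θ ∈ T, ‖((θ ^ k : Circle) : ℂ) - 1‖ < ρ}

/-- the trigonometric polynomials on the integers -/
noncomputable def Trig : Submodule ℂ (ℤ →ᵇ ℂ) := Submodule.span ℂ (Set.range chr)

/-- FB-NUL : means vanish on null sets; null sets form an ideal which is closed under negation and
does not contain the set of all integers -/
def S_nul : Prop :=
  (∀ m : (ℤ →ᵇ ℝ) →ₗ[ℝ] ℝ, IsMean m → ∀ N : Set ℤ, Null N → m (ind N) = 0) ∧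
  (∀ N N' : Set ℤ, N' ⊆ N → Null N → Null N') ∧
  (∀ N N' : Set ℤ, Null N → Null N' → Null (N ∪ N')) ∧
  Null ∅ ∧ ¬ Null Set.univ ∧
  (∀ N : Set ℤ, Null N → Null {a : ℤ | -a ∈ N})

/-- FB-MEAN : a set which is not null is charged by an extreme invariant mean -/
def S_mean : Prop :=
  ∀ S : Set ℤ, ¬ Null S → ∃ m : (ℤ →ᵇ ℝ) →ₗ[ℝ] ℝ, IsMean m ∧ Extr m ∧ 0 < m (ind S)

/-- FB-WMH : correlations of weakly mixing vectors with arbitrary vectors are small off null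
sets -/
def S_wmh : Prop :=
  ∀ (H : Type) [NormedAddCommGroup H] [InnerProductSpace ℂ H] [CompleteSpace H]
    (U : H ≃ₗᵢ[ℂ] H) (f : H),
    (∀ (θ : Circle) (v : H), U v = (θ : ℂ) • v → inner ℂ v f = 0) →
    ∀ (h : H) (η : ℝ), 0 < η → Null {a : ℤ | η < ‖inner ℂ h ((U ^ a) f)‖}

/-- FB-TRG : trigonometric polynomials form an algebra closed under conjugation -/
def S_trg : Prop :=
  (1 : ℤ →ᵇ ℂ) ∈ Trig ∧ (∀ f g : ℤ →ᵇ ℂ, f ∈ Trig → g ∈ Trig → f * g ∈ Trig) ∧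
  (∀ f : ℤ →ᵇ ℂ, f ∈ Trig → star f ∈ Trig)

/-- FB-CLAMP : truncation of a trigonometric polynomial to values in the unit interval -/
def S_clamp : Prop :=
  ∀ Q : ℤ →ᵇ ℂ, Q ∈ Trig → ∀ δ : ℝ, 0 < δ →
    ∃ P : ℤ →ᵇ ℝ, co P ∈ Trig ∧ (∀ n, 0 ≤ P n ∧ P n ≤ 1) ∧
      ∀ (n : ℤ) (s : ℝ), 0 ≤ s → s ≤ 1 → |s - P n| ≤ ‖(s : ℂ) - Q n‖ + 2 * δ

/-- FB-BOHR : trigonometric polynomials are uniformly almost periodic -/
def S_bohr : Prop :=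
  ∀ Q : ℤ →ᵇ ℂ, Q ∈ Trig → ∀ ε : ℝ, 0 < ε → ∃ (T : Finset Circle) (ρ : ℝ), 0 < ρ ∧
    ∀ a ∈ Bo T ρ, ∀ n : ℤ, ‖Q (n + a) - Q n‖ ≤ ε

/-- FB-APPR : the almost periodic part of a set, for correlations -/
def S_appr : Prop :=
  ∀ m : (ℤ →ᵇ ℝ) →ₗ[ℝ] ℝ, IsMean m → Extr m → ∀ (S : Set ℤ) (ε : ℝ), 0 < ε →
    ∃ P : ℤ →ᵇ ℝ, co P ∈ Trig ∧ (∀ n, 0 ≤ P n ∧ P n ≤ 1) ∧
      ∀ b : ℤ →ᵇ ℝ, co b ∈ Trig → (∀ n, |b n| ≤ 1) →
        ∀ G : ℤ →ᵇ ℝ, (∀ n, |G n| ≤ 1) → Null {a : ℤ | ε < |m (b * (ind S - P) * sh a G)|}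

/-- FB-DENS : Bohr neighbourhoods of zero have positive lower Banach density -/
def S_dens : Prop :=
  ∀ (T : Finset ℝ) (ρ : ℝ), 0 < ρ → ∃ c : ℝ, 0 < c ∧ ∃ L0 : ℕ, ∀ L : ℕ, L0 ≤ L → ∀ u : ℕ,
    c * L ≤ ({k : ℕ | u < k ∧ k ≤ u + L ∧ ∀ θ ∈ T, |k * θ - round (k * θ)| < ρ}.ncard : ℝ)

/-- FB-CONV : from points of the circle to real numbers -/
def S_conv : Prop :=
  ∀ (T : Finset Circle) (ρ : ℝ), 0 < ρ → ∃ (T' : Finset ℝ) (ρ' : ℝ), 0 < ρ' ∧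
    ∀ k : ℕ, (∀ θ ∈ T', |k * θ - round (k * θ)| < ρ') → (k : ℤ) ∈ Bo T ρ

/-- all sums of consecutive elements of a list lie in `E` -/
def Good (E : Set ℤ) : List ℤ → Prop
  | [] => True
  | a :: l => (∀ p : List ℤ, p <+: l → a + p.sum ∈ E) ∧ Good E l

/-- FB-MAIN : the structure theorem for sets which contain all consecutive sums of arbitrarily long
sequences -/
def S_main : Prop :=
  ∀ E : Set ℤ, (∀ (T : Finset Circle) (ρ : ℝ), 0 < ρ → ¬ Null (E ∩ Bo T ρ)) →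
    ∀ k : ℕ, ∃ l : List ℤ, l.length = k ∧ Good E l

end Pool.Agent.W27.FB
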